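import Pool.Agent.L7h58.SK.Main

/-!
# Rational injectivity of `colim K₁(R[H]) → K₁(R[G])` for commutative rings

Let `G` be any group, `R` any commutative ring and `A : colim K₁(R[H]) → K₁(R[G])` the canonical
map, the colimit being over the finite subgroups `H` of `G` (and the maps given by conjugation with
elements of `G`). There is no hypothesis on `G`.

The definitions are in `Pool.Agent.Y69.WhDef` (`K1`), `Pool.Agent.Y69.TK.KDef` (`ColimK1`,
`assembly`) and `Pool.Agent.L7h58.SK.Def` (`unitPart`, `sk1Part`).
-/

namespace Pool.Agent.Results.MP_6374fb_al.CommutativeK1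

open Pool.Agent.Y69.FJ Pool.Agent.Y69.FJK Pool.Agent.L7h58.SK

/-- In `K₁(R[C])`, for all finite cyclic groups `C`, the classes of the matrices of determinant one
have finite order. -/
def SK1Torsion (R : Type) [CommRing R] : Prop :=
  ∀ (C : Type) [CommGroup C] [Finite C] [IsCyclic C] (n : ℕ)
    (M : (Matrix (Fin n) (Fin n) (MonoidAlgebra R C))ˣ),
    (M : Matrix (Fin n) (Fin n) (MonoidAlgebra R C)).det = 1 → ∃ k : ℕ, 0 < k ∧ k • K1.mk M = 0

/-- `R` is the directed union of finitely generated subrings of Krull dimension at most one. -/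
def LocallyDimOne (R : Type) [CommRing R] : Prop :=
  ∀ s : Finset R, ∃ t : Finset R, s ⊆ t ∧ Ring.KrullDimLE 1 (Algebra.adjoin ℤ (t : Set R))

/-- The kernel of `A` lies, up to torsion, in the part which comes from `SK₁` of group rings of
finite cyclic groups: every element of `colim K₁(R[H])` has a multiple `u + s`, where `u` comes from
units of group rings of finite abelian groups and `s` from matrices of determinant one over group
rings of finite cyclic groups, and if `A (u + s)` has finite order then `u` has finite order.
Hence the rationalised map is injective if those matrices of determinant one have finite order in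
`K₁`, in particular if `R` is semilocal or locally of dimension at most one. -/
theorem result (R G : Type) [CommRing R] [Group G] :
    (∀ x : ColimK1 R G, ∃ k : ℕ, 0 < k ∧ ∃ u ∈ unitPart R G, ∃ s ∈ sk1Part R G, k • x = u + s) ∧
    (∀ u ∈ unitPart R G, ∀ s ∈ sk1Part R G, ∀ n : ℕ, 0 < n → n • assembly R G (u + s) = 0 →
      ∃ l : ℕ, 0 < l ∧ l • u = 0) ∧
    (SK1Torsion R ∨ Finite (MaximalSpectrum R) ∨ LocallyDimOne R →
      ∀ (x : ColimK1 R G) (n : ℕ), 0 < n → n • assembly R G x = 0 →
        ∃ l : ℕ, 0 < l ∧ l • x = 0) := by
  refine ⟨fin_dec R G, fun u hu s hs n hn h => fin_unit R G u hu s hs n hn h, ?_⟩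
  rintro (hR | hR | hR) x n hn h
  · exact fin_tor R G hR x n hn h
  · exact fin_tor R G (fun C _ _ _ m M hM => sk1_semilocal R C m M hM) x n hn h
  · exact fin_tor R G (fun C _ _ _ m M hM => sk1_union R hR C m M hM) x n hn h

end Pool.Agent.Results.MP_6374fb_al.CommutativeK1
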