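import Pool.Agent.L7h59.NC.Res
import Pool.Agent.L7h42.NC.Azu
import Pool.Agent.L7h21.NC.Com0
import Pool.Agent.L7h21.NC.Comk1

/-!
# MP_6374fb_al: noncommutative coefficient rings, all groups, degrees zero and one

Let `R` be a ring, `G` a group and `A : colim K_i(R[H]) → K_i(R[G])` the canonical map, the colimit
being over the finite subgroups `H` of `G` (and the maps given by conjugation with elements of `G`).
`G` is arbitrary. The map `A` is injective up to torsion

* for `i = 0` if every finite subset of `R` is contained in a subring which is left Artinian and
  finitely generated as a module over its centre (`ArtinFinite`), or an Azumaya algebra, free as a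
  module, over a commutative ring with finitely many maximal ideals (`Good0`);
* for `i = 1` if every finite subset of `R` is contained in a subring which is `ArtinFinite` and
  semisimple, or `ArtinFinite` and killed by a power of a prime number, or an Azumaya algebra, free as
  a module, over a commutative ring which has finitely many maximal ideals or is a directed union of
  finitely generated subrings of Krull dimension at most one (`Good1`);
* so for algebras `R` over a field `k` in which every finite subset is contained in a
  finite-dimensional subalgebra, for `i = 0`, and for `i = 1` if the characteristic of `k` is positive.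
-/

set_option autoImplicit false

namespace Pool.Agent.Results.MP_6374fb_al.NoncommutativeCoefficients

open Pool.Agent.L7h59.NC
open Pool.Agent.L7h59.TW (k0 k1)

theorem result (R G : Type) [Ring R] [Group G] :
    (Locally (fun S _ => Good0 S) R → InjectiveUpToTorsion k0 R G) ∧
    (Locally (fun S _ => Good1 S) R → InjectiveUpToTorsion k1 R G) ∧
    ∀ (k : Type) [Field k] [Algebra k R],
      (∀ s : Finset R, ∃ S : Subalgebra k R, (∀ a ∈ s, a ∈ S) ∧ FiniteDimensional k S) →
        InjectiveUpToTorsion k0 R G ∧
          (∀ p : ℕ, p.Prime → (p : k) = 0 → InjectiveUpToTorsion k1 R G) :=
  res Pool.Agent.L7h42.NC.s_AZU Pool.Agent.L7h21.NC.s_COM0 Pool.Agent.L7h21.NC.s_COM1 R G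

end Pool.Agent.Results.MP_6374fb_al.NoncommutativeCoefficients
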