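import Mathlib
import Pool.Agent.L7h78.PC.Main

/-!
# Special actions on polygonal complexes labelled by Coxeter groups, and the Farrell–Jones conjecture

`C` is any class of groups with the closure properties `ClosedE C` which contains the Coxeter groups
of finite rank. Both are published for the class of the groups that satisfy the Farrell–Jones conjecture
in algebraic K-theory with coefficients and finite wreath products, which implies Q1 for these groups.

Let `M` be a Coxeter matrix on any set `S` (of any rank), and let `G` act on a simply connected
polygonal complex labelled by `M`: a graph `X` whose edges have labels in `S`, such that any two walks
with the same end points are homotopic (`Homot`) across polygons with `2 M s t` edges which have the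
labels `s`, `t`, `s`, `t`, … (for `M s t` finite). The elements of `G` permute the labels and preserve
the matrix. Let `N` be a normal subgroup of `G` with `G ⧸ N` in `C`, which fixes all labels and acts
freely on the vertices, and suppose that the complex is special (`Special`): edges with a common
vertex and the same label are equal, and edges with a common vertex and labels `s ≠ t` with `M s t`
finite are in a common polygon. Then `G` is in `C`.

For `M s t = 2` or infinite this is a theorem on square complexes, whose conditions are those of
Haglund and Wise modulo `N` (no self-crossing, no self-osculation, no inter-osculation of the
hyperplanes). In general the walls of the complex, which join opposite edges of the polygons, cross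
at the angles `π / m` of any Coxeter group, the labels are the classes of walls modulo `N`, and two
walls next to the same vertex whose classes have a finite `M s t` must cross next to this vertex, at
the angle `π / M s t`. The Davis complex of a Coxeter group is an example, but the complex need not be
a Davis complex and no element of `G` need be a reflection.

There is no finiteness condition: the complex may have any dimension and infinitely many orbits, the
vertices infinitely many edges, and the stabilizers of the vertices may be any groups which embed in
a group `G ⧸ N` in `C`.

Outline of the proof. Let `W` be the Coxeter group with the matrix `M`, usually of infinite rank; the
group `G ⧸ N` acts on it. The product in `W` of the labels of a walk depends only on its end points,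
because the complex is simply connected. Its length is the distance of the end points: by induction
on the distance, every left descent of the product is the label of the first edge of a shortest walk.
For this one uses that an element with two left descents `s`, `t` begins with the alternating
product of `s` and `t` of the length `M s t`, which is finite, and moves around the polygon. In
particular the product is trivial only if the end points are equal. So
`g ↦ (product of the labels from x₀ to g x₀, g N)` embeds `G` in the semidirect product of `W` and
`G ⧸ N`. This group is in `C` by the theorem on extensions by Coxeter groups of arbitrary rank
(starting files, `Pool.Agent.N77.CX`).
-/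

set_option autoImplicit false

namespace Pool.Agent.Results.MP_6374fb_al.SpecialPolygonComplexes

open Pool.Agent.Y110.FJ (ClosedE)
open Pool.Agent.L7h78.PC (Special)

theorem result (C : ∀ (G : Type) [Group G], Prop) (hC : ClosedE C)
    (hcox : ∀ (S : Type) (_ : Finite S) (A : CoxeterMatrix S), C A.Group)
    {G V S : Type} [Group G] [MulAction G V] [MulAction G S]
    (X : SimpleGraph V) (M : CoxeterMatrix S) (lab : V → V → S) (hX : Special X M lab)
    (hV : ∀ (g : G) (x y : V), X.Adj x y → X.Adj (g • x) (g • y))
    (hM : ∀ (g : G) (s t : S), M (g • s) (g • t) = M s t)
    (hl : ∀ (g : G) (x y : V), X.Adj x y → lab (g • x) (g • y) = g • lab x y)
    (N : Subgroup G) [N.Normal] (hQ : C (G ⧸ N))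
    (hfree : ∀ n ∈ N, ∀ x : V, n • x = x → n = 1) (htriv : ∀ n ∈ N, ∀ s : S, n • s = s) :
    C G :=
  Pool.Agent.L7h78.PC.special_main hC hcox hX hV hM hl N hQ hfree htriv

end Pool.Agent.Results.MP_6374fb_al.SpecialPolygonComplexes
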