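import Mathlib
import Pool.Agent.L7h59.VA.Main

/-!
# The Farrell–Jones conjecture and the virtual Artin groups

`C` is any class of groups with the closure properties `ClosedE C` (it contains `ℤ`, is closed under
subgroups, finite products, free products, overgroups of finite index and directed colimits, and
satisfies the extension criterion of the Farrell–Jones conjecture) which contains the metabelian
groups and the Coxeter groups of finite rank. All this is published for the class of the groups
which satisfy the `K`-theoretic Farrell–Jones conjecture with coefficients and finite wreath products.

`VArtin M` is the virtual Artin group of a Coxeter matrix `M` of finite rank (Bellingeri, Paris,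
Thiel): generators `σ i`, `τ i` and the relations of the Artin group for the `σ i`, the relations
of the Coxeter group for the `τ i` and
`(… τ i τ j) σ i = σ r (… τ i τ j)`
with `M i j - 1` letters in the alternating word and `r = i` for even `M i j`, `r = j` for odd `M i j`.

Let `W` be the Coxeter group of `M` and `Om` the set of the classes of the pairs `(w, i)` for the
equivalence relation generated by `(w u, i) ~ (w, r)`, `u = … i j` the alternating word with
`M i j - 1` letters (so `u i = r u`). By a theorem of Deodhar the classes correspond to the roots
`w α_i` of `W`. The group `W` acts on `Om`. Let `mh` be the Coxeter matrix on `Om` in which the label of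
the classes of `(w, i)` and `(w, j)` is `M i j` and all other labels are infinity.

Theorem: `VArtin M` is in `C` if and only if the Artin groups of the matrices `rs mh X` are in `C` for all
finite sets `X` of classes without two classes with label infinity.

So the Farrell–Jones conjecture for virtual Artin groups is reduced to the one for Artin groups of
finite rank without infinite labels; all labels in `rs mh X` are labels of `M`. If for example the
finite labels of `M` are all equal to `2`, or all at least `5`, then the Artin groups of `rs mh X` are
free abelian or of type XXL, and known to be in `C`.

The proof: `VArtin M` is the semidirect product of the Artin group of `mh` (of infinite rank if `W` is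
infinite) by `W`; one uses the theorem on extensions by Artin groups (`Pool.Agent.L7h59.AR.ext`).
-/

set_option autoImplicit false

namespace Pool.Agent.Results.MP_6374fb_al.VirtualArtinGroups

open Pool.Agent.Y110.FJ (ClosedE)
open Pool.Agent.Helper703.Cox (Artin)
open Pool.Agent.L7h59.AR (rs)
open Pool.Agent.L7h59.VA (VArtin Om mh)

theorem result (C : ∀ (G : Type) [Group G], Prop) (hC : ClosedE C)
    (hmet : ∀ (G : Type) [Group G], derivedSeries G 2 = ⊥ → C G)
    (hcox : ∀ (S : Type) (_ : Finite S) (A : CoxeterMatrix S), C A.Group)
    (B : Type) [Fintype B] [DecidableEq B] (M : CoxeterMatrix B) :
    C (VArtin M) ↔ ∀ X : Set (Om M.toCoxeterSystem), X.Finite →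
      (∀ i ∈ X, ∀ j ∈ X, mh M.toCoxeterSystem i j ≠ 0) →
      C (Artin (rs (mh M.toCoxeterSystem) X)) :=
  Pool.Agent.L7h59.VA.C_VArtin M.toCoxeterSystem hC hmet hcox (hcox B inferInstance M)

end Pool.Agent.Results.MP_6374fb_al.VirtualArtinGroups
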